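import Pool.Agent.Helper23.MC.Goals2
import Pool.Agent.Helper76.CR.SQ

/-!
# Packet LVQ: the two lower bounds together, for divisors of `QQ x`
-/

set_option autoImplicit false

open Finset Filter Topology

open scoped Classical

namespace Pool.Agent.Helper44.MC

open Pool.Agent.Helper88.PP (pr Rg om Sf SS uu vv ee LA VV QQ cost)
open Pool.Agent.Helper88.RR (gg ab TB WB nz wb DB Db VM)
open Pool.Agent.Helper88.GM (NI XI gB In)
open Pool.Agent.Helper88.CG (tw pw th ic DS sg CN qE mE)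
open Pool.Agent.Helper23.MC
open Pool.Agent.Helper76.CR (cls sum_cls card_cls XI_cls QQ_pos mem_cls)

lemma om_nn (y z : ℕ) : 0 ≤ om y z := by
  unfold om
  refine prod_nonneg (fun p hp => ?_)
  have hp1 : 1 < p := ((mem_filter.mp hp).2).one_lt
  have : (1 : ℝ) / p ≤ 1 := by
    rw [div_le_one (by positivity)]
    exact_mod_cast hp1.le
  linarith

lemma pw_nn (x n : ℕ) : 0 ≤ pw x n := by
  unfold pw
  split_ifs
  · have h0 : 0 ≤ tw x n := le_max_left _ _
    have h1 : 0 ≤ Real.log (n : ℝ) := Real.log_natCast_nonneg n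
    have h2 : 0 ≤ Real.log (x : ℝ) := Real.log_natCast_nonneg x
    positivity
  · exact le_rfl

lemma gg_nn {y z k : ℕ} (h : k ≤ y) : 0 ≤ gg y z k := by
  unfold gg
  refine prod_nonneg (fun p hp => ?_)
  have hp1 : y < p := (mem_Ioc.mp (mem_filter.mp hp).1).1
  have hp0 : (0 : ℝ) < p := by
    have : 0 < p := by omega
    exact_mod_cast this
  have : (k : ℝ) / p ≤ 1 := by
    rw [div_le_one hp0]
    have : k ≤ p := by omega
    exact_mod_cast this
  linarith

lemma D1_nn (E z y : ℕ) {P : Finset ℕ} (hP : P ⊆ Icc 1 y) : 0 ≤ D1 E z y P := by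
  unfold D1 DB wb
  refine sum_nonneg (fun r _ => mul_nonneg (gg_nn ?_) (prod_nonneg (fun i _ => ?_)))
  · unfold nz
    calc (univ.filter (fun i => r i ≠ 0)).card ≤ (univ : Finset P).card := card_filter_le _ _
      _ = P.card := by simp
      _ ≤ (Icc 1 y).card := card_le_card hP
      _ = y := by simp
  · split_ifs
    · norm_num
    · positivity

lemma NH_nn (H : Finset ℕ) (T : Finset (H → ℕ)) (κ : (H → ℕ) → ℝ) : 0 ≤ NH H T κ := by
  unfold NH
  exact sum_nonneg (fun s _ => mul_nonneg (sq_nonneg _) (prod_nonneg (fun i _ => by positivity)))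

lemma XI_nn (u v Q : ℕ) : 0 ≤ XI u v Q := by
  unfold XI
  positivity

theorem lvq (hLV : StmtLV) (hCB : StmtCBL) : StmtLVQ := by
  obtain ⟨A0, hCB⟩ := hCB
  refine ⟨A0, ?_⟩
  intro A K0 C η hC hη
  set e : ℝ := min (η / 2) (1 / 2) with he
  have he0 : 0 < e := by
    rw [he]
    positivity
  have he1 : e ≤ η / 2 := min_le_left _ _
  have he2 : e ≤ 1 / 2 := min_le_right _ _
  obtain ⟨c, hc, E1, h1⟩ := hLV A K0 C e hC he0
  obtain ⟨E2, h2⟩ := hCB A K0 e he0
  refine ⟨c, hc, max E1 E2, ?_⟩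
  intro E z x y hE hS hy Q b hQ hb P B hP hB hPB hBc hPc j hj hjP hjB T κ hA
  have hR := QQ_pos x
  have hD : 0 ≤ D1 E z y P * NH B T κ := mul_nonneg (D1_nn E z y hP) (NH_nn B T κ)
  have hO : 0 ≤ om y z := om_nn y z
  have hOb : 0 ≤ om y z ^ B.card := pow_nonneg hO _
  have hX : 0 ≤ XI (x / 32) x (QQ x) := XI_nn _ _ _
  have hOE : 0 ≤ om y z / E := div_nonneg hO (Nat.cast_nonneg _)
  have key : ∀ a ∈ cls (QQ x) Q b,
      D1 E z y P * NH B T κ * om y z ^ B.card *
        ((1 - η) * (∑ n ∈ NI (x / 32) x (QQ x) a, pw x (n + j))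
          - η * (XI (x / 32) x (QQ x) * (om y z / E)))
        - Real.exp (-(c * E)) * XI (x / 32) x (QQ x)
      ≤ ∑ n ∈ NI (x / 32) x (QQ x) a, pw x (n + j) *
          (W1 E z y P n ^ 2 * VH y z B T κ n ^ 2) := by
    intro a ha
    have k1 := h1 E z x y (le_trans (le_max_left _ _) hE) hS a (mem_cls ha) P B hP hB hPB hBc hPc
      j hj hjP hjB T κ hA
    have k2 := h2 E z x y (le_trans (le_max_right _ _) hE) hS hy a (mem_cls ha) B hB hBc j hj hjB
    refine le_trans ?_ k1
    have hp : 0 ≤ ∑ n ∈ NI (x / 32) x (QQ x) a, pw x (n + j) :=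
      sum_nonneg (fun n _ => pw_nn _ _)
    generalize (∑ n ∈ NI (x / 32) x (QQ x) a,
      (if ∀ i ∈ B, Rg y z (n + i) then pw x (n + j) else 0)) = S at k2 ⊢
    generalize (∑ n ∈ NI (x / 32) x (QQ x) a, pw x (n + j)) = p at k2 hp ⊢
    generalize XI (x / 32) x (QQ x) = X at k2 hX ⊢
    generalize om y z ^ B.card = o at k2 hOb ⊢
    generalize om y z / E = w at k2 hOE ⊢
    generalize D1 E z y P * NH B T κ = D at hD ⊢
    have hXw : 0 ≤ X * w := mul_nonneg hX hOE
    have step : o * ((1 - η) * p - η * (X * w)) ≤ (1 - e) * S - e * (X * w * o) := by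
      have s1 : (1 - e) * ((1 - e) * (o * p) - e * (X * w * o)) ≤ (1 - e) * S :=
        mul_le_mul_of_nonneg_left k2 (by linarith)
      have s2 : (1 - η) * (o * p) ≤ (1 - e) * ((1 - e) * (o * p)) := by
        have : 0 ≤ o * p := mul_nonneg hOb hp
        nlinarith [mul_nonneg he0.le he0.le]
      have s3 : (1 - e) * (e * (X * w * o)) + e * (X * w * o) ≤ η * (X * w * o) := by
        have : 0 ≤ X * w * o := mul_nonneg hXw hOb
        nlinarith [mul_nonneg he0.le he0.le]
      nlinarith [s1, s2, s3]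
    have := mul_le_mul_of_nonneg_left step hD
    linarith
  have hsum := Finset.sum_le_sum key
  rw [sum_cls hR hQ (x / 32) x b (fun n => pw x (n + j) *
      (W1 E z y P n ^ 2 * VH y z B T κ n ^ 2)),
    sum_cls hR hQ (x / 32) x b (fun n => pw x (n + j))]
  refine le_trans (le_of_eq ?_) hsum
  rw [← XI_cls hR hQ hb (x / 32) x]
  simp only [mul_sub, Finset.sum_sub_distrib, ← Finset.mul_sum, Finset.sum_const, nsmul_eq_mul]
  ring

end Pool.Agent.Helper44.MC
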